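import Mathlib

set_option autoImplicit false
open Set
open Cardinal hiding univ

namespace Pool.Agent.H276Z.Sok

theorem mk_Iio_lt' {c : Cardinal.{0}} (i : c.ord.ToType) : #(Iio i) < c := by
  simpa using mk_Iio_lt i

theorem exists_rec {W T : Type} [LinearOrder W] [WellFoundedLT W] [hT : Nonempty T]
    (P : W → (W → T) → T → Prop)
    (hloc : ∀ a F G t, (∀ b, b < a → F b = G b) → P a F t → P a G t)
    (h : ∀ a F, ∃ t, P a F t) : ∃ F : W → T, ∀ a, P a F (F a) := by
  classical
  obtain ⟨t0⟩ := hT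
  let ext : (a : W) → ((b : W) → b < a → T) → W → T := fun a prev b =>
    if hb : b < a then prev b hb else t0
  let F : W → T := (wellFounded_lt (α := W)).fix (fun a prev => (h a (ext a prev)).choose)
  refine ⟨F, fun a => ?_⟩
  have hF : F a = (h a (ext a (fun b _ => F b))).choose := by
    simp only [F]
    rw [WellFounded.fix_eq]
  refine hloc a (ext a (fun b _ => F b)) F _ (fun b hb => by simp [ext, hb]) ?_
  rw [hF]
  exact (h a _).choose_spec

/-- In a subset `J` of a linear order with `μ < #J` and all initial segments of size at most `μ`,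
countable sets are strictly bounded. -/
theorem exists_gt_of_countable {W : Type} [LinearOrder W] (J : Set W) (μ : Cardinal.{0})
    (hμ : ℵ₀ ≤ μ) (hJ : μ < #J) (hI : ∀ a ∈ J, #(J ∩ Iio a : Set W) ≤ μ) (T : Set W)
    (hT : T.Countable) (hTJ : T ⊆ J) : ∃ c ∈ J, ∀ t ∈ T, t < c := by
  by_contra hne
  push Not at hne
  have hsub : J ⊆ ⋃ t ∈ T, insert t (J ∩ Iio t) := by
    intro c hc
    obtain ⟨t, ht, hct⟩ := hne c hc
    simp only [mem_iUnion]
    refine ⟨t, ht, ?_⟩
    rcases hct.eq_or_lt with h | h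
    · exact Or.inl h
    · exact Or.inr ⟨hc, h⟩
  have h1 : #(⋃ t ∈ T, insert t (J ∩ Iio t) : Set W) ≤ μ := by
    refine (mk_biUnion_le _ _).trans ?_
    have hT' : #T ≤ μ := (le_aleph0_iff_set_countable.mpr hT).trans hμ
    have h2 : ⨆ t : T, #(insert t.1 (J ∩ Iio t.1) : Set W) ≤ μ := by
      refine ciSup_le' fun t => ?_
      refine mk_insert_le.trans ?_
      exact add_le_of_le hμ (hI _ (hTJ t.2)) (one_le_aleph0.trans hμ)
    exact mul_le_of_le hμ hT' h2
  exact absurd ((mk_le_mk_of_subset hsub).trans h1) (not_le.mpr hJ)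

/-- Countable tightness. -/
def Tight (K : Type) [TopologicalSpace K] : Prop :=
  ∀ S : Set K, (∀ C ⊆ S, C.Countable → closure C ⊆ S) → IsClosed S

theorem Tight.exists_countable {K : Type} [TopologicalSpace K] (h : Tight K) {A : Set K} {x : K}
    (hx : x ∈ closure A) : ∃ C ⊆ A, C.Countable ∧ x ∈ closure C := by
  let S : Set K := {y | ∃ C ⊆ A, C.Countable ∧ y ∈ closure C}
  have hS : IsClosed S := by
    refine h S fun C hC hCc => ?_
    have hC' : ∀ c ∈ C, ∃ D ⊆ A, D.Countable ∧ c ∈ closure D := hC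
    choose! D hD1 hD2 hD3 using hC'
    intro y hy
    refine ⟨⋃ c ∈ C, D c, iUnion₂_subset fun c hc => hD1 c hc,
      hCc.biUnion fun c hc => hD2 c hc, ?_⟩
    refine closure_minimal ?_ isClosed_closure hy
    intro c hc
    exact closure_mono (subset_biUnion_of_mem (u := D) hc) (hD3 c hc)
  have hA : A ⊆ S := fun a ha => ⟨{a}, by simpa using ha, countable_singleton a, subset_closure rfl⟩
  exact closure_minimal hA hS hx

theorem Tight.exists_countable₂ {K : Type} [TopologicalSpace K] (h : Tight K) {A : Set K} {x y : K}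
    (hx : x ∈ closure A) (hy : y ∈ closure A) :
    ∃ C ⊆ A, C.Countable ∧ x ∈ closure C ∧ y ∈ closure C := by
  obtain ⟨C, h1, h2, h3⟩ := h.exists_countable hx
  obtain ⟨D, h4, h5, h6⟩ := h.exists_countable hy
  exact ⟨C ∪ D, union_subset h1 h4, h2.union h5, closure_mono subset_union_left h3,
    closure_mono subset_union_right h6⟩

theorem Tight.prod {K L : Type} [TopologicalSpace K] [TopologicalSpace L] [CompactSpace L]
    [T2Space L] (hK : Tight K) (hL : Tight L) : Tight (K × L) := by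
  intro S hS
  rw [← closure_subset_iff_isClosed]
  rintro ⟨x, y⟩ hxy
  by_contra hn
  have hF : IsClosed {y' : L | (x, y') ∈ S} := by
    refine hL _ fun C hC hCc y' hy' => ?_
    have h1 : (x, y') ∈ closure ((fun z : L => (x, z)) '' C) :=
      image_closure_subset_closure_image (f := fun z : L => (x, z)) (by fun_prop) ⟨y', hy', rfl⟩
    exact hS _ (by rintro _ ⟨z, hz, rfl⟩; exact hC hz) (hCc.image _) h1
  obtain ⟨V, hV, hVc, hVs⟩ := exists_mem_nhds_isClosed_subset (hF.isOpen_compl.mem_nhds (x := y) hn)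
  have hB : IsClosed (Prod.fst '' (S ∩ univ ×ˢ V)) := by
    refine hK _ fun C hC hCc => ?_
    obtain ⟨C', hC', hC'c, rfl⟩ : ∃ C' ⊆ S ∩ univ ×ˢ V, C'.Countable ∧ Prod.fst '' C' = C := by
      have : Nonempty (K × L) := ⟨(x, y)⟩
      have hC' : ∀ c ∈ C, ∃ z ∈ S ∩ univ ×ˢ V, z.1 = c := hC
      choose! g hg1 hg2 using hC'
      refine ⟨g '' C, ?_, hCc.image _, ?_⟩
      · rintro _ ⟨c, hc, rfl⟩; exact hg1 c hc
      · rw [image_image]
        exact (image_congr fun c hc => hg2 c hc).trans (image_id _)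
    have hcl : IsClosed (Prod.fst '' closure C') := isClosedMap_fst_of_compactSpace _ isClosed_closure
    refine (closure_minimal (image_mono subset_closure) hcl).trans (image_mono ?_)
    exact subset_inter (hS _ (hC'.trans inter_subset_left) hC'c)
      (closure_minimal (hC'.trans inter_subset_right) (isClosed_univ.prod hVc))
  have hx : (x, y) ∈ closure (S ∩ univ ×ˢ V) := by
    rw [inter_comm]
    refine mem_closure_iff_nhds.mpr fun t ht => ?_
    have : t ∩ univ ×ˢ V ∈ nhds (x, y) := Filter.inter_mem ht (prod_mem_nhds Filter.univ_mem hV)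
    obtain ⟨z, hz1, hz2⟩ := mem_closure_iff_nhds.mp hxy _ this
    exact ⟨z, hz1.1, hz1.2, hz2⟩
  have hx' : x ∈ Prod.fst '' (S ∩ univ ×ˢ V) := by
    rw [← hB.closure_eq]
    exact image_closure_subset_closure_image continuous_fst ⟨_, hx, rfl⟩
  obtain ⟨⟨x', y'⟩, ⟨h1, h2⟩, rfl⟩ := hx'
  exact hVs h2.2 h1

theorem Tight.subtype {K : Type} [TopologicalSpace K] (hK : Tight K) {R : Set K}
    (hR : IsClosed R) : Tight R := by
  intro S hS
  have h1 : IsClosed ((↑) '' S : Set K) := by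
    refine hK _ fun C hC hCc => ?_
    have hC' : C = (↑) '' (((↑) : R → K) ⁻¹' C) := by
      rw [image_preimage_eq_of_subset]
      exact hC.trans (image_subset_range _ _)
    have hsub : (((↑) : R → K) ⁻¹' C) ⊆ S := by
      intro z hz
      obtain ⟨w, hw, hwz⟩ := hC hz
      rwa [← Subtype.ext hwz]
    have := hS _ hsub (hCc.preimage Subtype.val_injective)
    rw [hC', hR.isClosedEmbedding_subtypeVal.closure_image_eq]
    exact image_mono this
  have := h1.preimage (continuous_subtype_val (p := (· ∈ R)))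
  rwa [preimage_image_eq _ Subtype.val_injective] at this

/-- `G` separates the points of `Z`. -/
def Sep {K : Type} [TopologicalSpace K] (G : Set C(K, ℝ)) (Z : Set K) : Prop :=
  ∀ x ∈ Z, ∀ y ∈ Z, x ≠ y → ∃ g ∈ G, g x ≠ g y

/-- Closures of sets of size at most `μ` are separated by at most `μ` functions. -/
def Mono (K : Type) [TopologicalSpace K] (μ : Cardinal.{0}) : Prop :=
  ∀ A : Set K, #A ≤ μ → ∃ G : Set C(K, ℝ), #G ≤ μ ∧ Sep G (closure A)

theorem Mono.sub_prod {K : Type} [TopologicalSpace K] {μ : Cardinal.{0}} (hμ : ℵ₀ ≤ μ)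
    (h : Mono K μ) (R : Set (K × K)) : Mono R μ := by
  intro A hA
  let p1 : C(R, K) := ⟨fun r => r.1.1, by fun_prop⟩
  let p2 : C(R, K) := ⟨fun r => r.1.2, by fun_prop⟩
  obtain ⟨G1, hG1, s1⟩ := h (p1 '' A) (mk_image_le.trans hA)
  obtain ⟨G2, hG2, s2⟩ := h (p2 '' A) (mk_image_le.trans hA)
  refine ⟨(fun g => g.comp p1) '' G1 ∪ (fun g => g.comp p2) '' G2,
    (mk_union_le _ _).trans (add_le_of_le hμ (mk_image_le.trans hG1) (mk_image_le.trans hG2)), ?_⟩
  intro x hx y hy hxy
  by_cases h1 : p1 x = p1 y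
  · have h2 : p2 x ≠ p2 y := fun h2 => hxy (Subtype.ext (Prod.ext h1 h2))
    obtain ⟨g, hg, hne⟩ := s2 _ (image_closure_subset_closure_image p2.continuous ⟨x, hx, rfl⟩) _
      (image_closure_subset_closure_image p2.continuous ⟨y, hy, rfl⟩) h2
    exact ⟨_, Or.inr ⟨g, hg, rfl⟩, hne⟩
  · obtain ⟨g, hg, hne⟩ := s1 _ (image_closure_subset_closure_image p1.continuous ⟨x, hx, rfl⟩) _
      (image_closure_subset_closure_image p1.continuous ⟨y, hy, rfl⟩) h1
    exact ⟨_, Or.inl ⟨g, hg, rfl⟩, hne⟩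

theorem Mono.succ {K : Type} [TopologicalSpace K] {μ : Cardinal.{0}} (hμ : ℵ₀ ≤ μ)
    (hK : Tight K) (h : Mono K μ) : Mono K (Order.succ μ) := by
  intro A hA
  rcases hA.lt_or_eq with hA | hA
  · obtain ⟨G, hG, s⟩ := h A (Order.lt_succ_iff.mp hA)
    exact ⟨G, hG.trans (Order.le_succ μ), s⟩
  let W := (Order.succ μ).ord.ToType
  obtain ⟨e⟩ : Nonempty (W ≃ A) := Cardinal.eq.mp (by rw [hA, mk_ord_toType])
  have hI : ∀ a : W, #(Iio a) ≤ μ := fun a => Order.lt_succ_iff.mp (mk_Iio_lt' a)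
  choose G hG s using fun a : W => h ((fun b => (e b).1) '' Iio a) (mk_image_le.trans (hI a))
  refine ⟨⋃ a, G a, ?_, ?_⟩
  · refine (mk_iUnion_le _).trans (mul_le_of_le (hμ.trans (Order.le_succ μ)) (by simp [W]) ?_)
    exact ciSup_le' fun a => (hG a).trans (Order.le_succ μ)
  · intro x hx y hy hxy
    obtain ⟨C, h1, h2, h3, h4⟩ := hK.exists_countable₂ hx hy
    obtain ⟨c, -, hc⟩ := exists_gt_of_countable (univ : Set W) μ hμ
      (by rw [mk_univ, mk_ord_toType]; exact Order.lt_succ μ)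
      (fun a _ => by rw [univ_inter]; exact hI a) ((fun b => (e b).1) ⁻¹' C)
      (h2.preimage (Subtype.val_injective.comp e.injective)) (subset_univ _)
    have hC : C ⊆ (fun b => (e b).1) '' Iio c := by
      intro z hz
      refine ⟨e.symm ⟨z, h1 hz⟩, hc _ (by simpa using hz), by simp⟩
    obtain ⟨g, hg, hne⟩ := s c x (closure_mono hC h3) y (closure_mono hC h4) hxy
    exact ⟨g, mem_iUnion.mpr ⟨c, hg⟩, hne⟩

theorem mono_lt_aleph_omega {K : Type} [TopologicalSpace K] (hK : Tight K) (h : Mono K ℵ₀)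
    (μ : Cardinal.{0}) (hμ : ℵ₀ ≤ μ) (hlt : μ < ℵ_ Ordinal.omega0) : Mono K μ := by
  have key : ∀ n : ℕ, Mono K (ℵ_ (n : Ordinal)) := by
    intro n
    induction n with
    | zero => simpa using h
    | succ n ih =>
      rw [Nat.cast_succ, ← succ_aleph]
      exact ih.succ (aleph0_le_aleph _) hK
  obtain ⟨o, rfl⟩ : ∃ o, μ = ℵ_ o := by
    obtain ⟨o, ho⟩ := mem_range_aleph_iff.mpr hμ
    exact ⟨o, ho.symm⟩
  obtain ⟨n, rfl⟩ := Ordinal.lt_omega0.mp (aleph_lt_aleph.mp hlt)
  exact key n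

end Pool.Agent.H276Z.Sok
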