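import Pool.Agent.H276Z.Sok.Basic

set_option autoImplicit false
open Set
open Cardinal hiding univ

namespace Pool.Agent.H276Z.Sok

def Cond (K : Type) [TopologicalSpace K] : Prop :=
  ∃ (ι : Type) (φ : ι → ((K → ℝ) →L[ℝ] ℝ)),
    (∀ f : C(K, ℝ), {i | φ i f ≠ 0}.Countable) ∧ ∀ f : C(K, ℝ), (∀ i, φ i f = 0) → f = 0

theorem cond_of_countable {K : Type} [TopologicalSpace K] (D : Set K) (hD : Dense D)
    (hc : D.Countable) : Cond K := by
  have := hc.to_subtype
  refine ⟨D, fun d => ContinuousLinearMap.proj d.1, fun f => to_countable _, fun f hf => ?_⟩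
  ext x
  have := Continuous.ext_on hD f.continuous continuous_const (g := fun _ => (0 : ℝ))
    (fun y hy => hf ⟨y, hy⟩)
  exact congrFun this x

theorem exists_norming {K : Type} [TopologicalSpace K] [CompactSpace K] (G : Finset C(K, ℝ)) :
    ∃ N : Set K, N.Countable ∧ ∀ w, ∃ z ∈ closure N, ∀ g ∈ G, g z = g w := by
  let π : K → (G → ℝ) := fun x g => g.1 x
  have hπ : Continuous π := continuous_pi fun g => g.1.continuous
  obtain ⟨t, ht, htc, hcl⟩ :=
    (TopologicalSpace.IsSeparable.of_separableSpace (range π)).exists_countable_dense_subset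
  obtain ⟨N, hN, hNc⟩ : ∃ N : Set K, π '' N = t ∧ N.Countable := by
    rcases isEmpty_or_nonempty K with hK | hK
    · refine ⟨∅, ?_, countable_empty⟩
      rw [image_empty]
      symm
      rw [← subset_empty_iff]
      rwa [range_eq_empty] at ht
    have ht' : ∀ y ∈ t, ∃ x, π x = y := ht
    choose! s hs using ht'
    refine ⟨s '' t, ?_, htc.image _⟩
    rw [image_image]
    exact (image_congr hs).trans (image_id _)
  refine ⟨N, hNc, fun w => ?_⟩
  have h1 : IsClosed (π '' closure N) := (isClosed_closure.isCompact.image hπ).isClosed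
  have h2 : π w ∈ π '' closure N :=
    closure_minimal (hN ▸ image_mono subset_closure) h1 (hcl ⟨w, rfl⟩)
  obtain ⟨z, hz, hzw⟩ := h2
  exact ⟨z, hz, fun g hg => congrFun hzw ⟨g, hg⟩⟩

theorem mk_finset_le_of {α : Type} {μ : Cardinal.{0}} (hμ : ℵ₀ ≤ μ) (h : #α ≤ μ) :
    #(Finset α) ≤ μ := by
  classical
  have : #(Finset α) ≤ #(List α) := mk_le_of_surjective List.toFinset_surjective
  exact this.trans ((mk_list_le_max α).trans (max_le hμ h))

/-- The chain of pairs (points, functions). -/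
theorem exists_chain {K : Type} [TopologicalSpace K] [CompactSpace K] {W : Type} [LinearOrder W]
    [WellFoundedLT W] (x0 : K) (d : W → K) (hM : ∀ a : W, Mono K (max #(Iio a) ℵ₀)) :
    ∃ (A A' : W → Set K) (B : W → Set C(K, ℝ)),
      (∀ a, A a = insert x0 (⋃ b ∈ Iio a, A' b)) ∧ (∀ a, A a ⊆ A' a) ∧ (∀ a, d a ∈ A' a) ∧
      (∀ a, #(A' a) ≤ max #(Iio a) ℵ₀) ∧ Monotone B ∧
      (∀ a b, a < b → Sep (B b) (closure (A a))) ∧
      ∀ a w, ∃ z ∈ closure (A a), ∀ g ∈ B a, g z = g w := by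
  classical
  choose N hNc hN using exists_norming (K := K)
  let μ : W → Cardinal.{0} := fun a => max #(Iio a) ℵ₀
  have hμ : ∀ a, ℵ₀ ≤ μ a := fun a => le_max_right _ _
  have hμm : ∀ a b, b < a → μ b ≤ μ a := fun a b h =>
    max_le_max (mk_le_mk_of_subset (Iio_subset_Iio h.le)) le_rfl
  let UA : W → (W → Set K × Set C(K, ℝ)) → Set K := fun a F => insert x0 (⋃ b ∈ Iio a, (F b).1)
  let UB : W → (W → Set K × Set C(K, ℝ)) → Set C(K, ℝ) := fun a F => ⋃ b ∈ Iio a, (F b).2
  let P : W → (W → Set K × Set C(K, ℝ)) → Set K × Set C(K, ℝ) → Prop := fun a F t =>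
    (∀ b, b < a → #(F b).1 ≤ μ b ∧ #(F b).2 ≤ μ b) →
      (#t.1 ≤ μ a ∧ #t.2 ≤ μ a) ∧ UA a F ⊆ t.1 ∧ d a ∈ t.1 ∧ UB a F ⊆ t.2 ∧
        Sep t.2 (closure (UA a F)) ∧ ∀ G : Finset C(K, ℝ), (G : Set C(K, ℝ)) ⊆ t.2 → N G ⊆ t.1
  obtain ⟨F, hF⟩ := exists_rec P (by
    intro a F G t hFG h hG
    have e1 : UA a F = UA a G := by
      simp only [UA]; congr 1; exact iUnion₂_congr fun b hb => by rw [hFG b hb]
    have e2 : UB a F = UB a G := iUnion₂_congr fun b hb => by rw [hFG b hb]
    rw [← e1, ← e2]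
    exact h fun b hb => by rw [hFG b hb]; exact hG b hb) (by
    intro a F
    by_cases hg : ∀ b, b < a → #(F b).1 ≤ μ b ∧ #(F b).2 ≤ μ b
    swap
    · exact ⟨(∅, ∅), fun h => absurd h hg⟩
    have c1 : #(UA a F) ≤ μ a := by
      refine mk_insert_le.trans (add_le_of_le (hμ a) ?_ (one_le_aleph0.trans (hμ a)))
      refine (mk_biUnion_le _ _).trans (mul_le_of_le (hμ a) (le_max_left _ _) ?_)
      exact ciSup_le' fun b => (hg b.1 b.2).1.trans (hμm a b.1 b.2)
    have c2 : #(UB a F) ≤ μ a := by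
      refine (mk_biUnion_le _ _).trans (mul_le_of_le (hμ a) (le_max_left _ _) ?_)
      exact ciSup_le' fun b => (hg b.1 b.2).2.trans (hμm a b.1 b.2)
    obtain ⟨G0, hG0, s0⟩ := hM a _ c1
    have c3 : #(UB a F ∪ G0 : Set C(K, ℝ)) ≤ μ a :=
      (mk_union_le _ _).trans (add_le_of_le (hμ a) c2 hG0)
    refine ⟨(insert (d a) (UA a F) ∪ ⋃ G : Finset (UB a F ∪ G0 : Set C(K, ℝ)),
      N (G.map (Function.Embedding.subtype _)), UB a F ∪ G0), fun _ => ⟨⟨?_, c3⟩, ?_, ?_, ?_, ?_, ?_⟩⟩
    · refine (mk_union_le _ _).trans (add_le_of_le (hμ a) ?_ ?_)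
      · exact mk_insert_le.trans (add_le_of_le (hμ a) c1 (one_le_aleph0.trans (hμ a)))
      · refine (mk_iUnion_le _).trans (mul_le_of_le (hμ a) (mk_finset_le_of (hμ a) c3) ?_)
        exact ciSup_le' fun G => (le_aleph0_iff_set_countable.mpr (hNc _)).trans (hμ a)
    · exact (subset_insert _ _).trans subset_union_left
    · exact Or.inl (mem_insert _ _)
    · exact subset_union_left
    · intro x hx y hy hxy
      obtain ⟨g, hg, hne⟩ := s0 x hx y hy hxy
      exact ⟨g, Or.inr hg, hne⟩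
    · intro G hG
      refine Subset.trans ?_ subset_union_right
      refine subset_iUnion_of_subset (G.subtype (· ∈ UB a F ∪ G0)) ?_
      rw [Finset.subtype_map_of_mem (fun x hx => hG hx)])
  have hsz : ∀ a, #(F a).1 ≤ μ a ∧ #(F a).2 ≤ μ a := by
    intro a
    induction a using WellFoundedLT.induction with
    | ind a ih => exact (hF a ih).1
  have hG := fun a => (hF a (fun b _ => hsz b)).2
  have hB1 : ∀ a b, b < a → (F b).2 ⊆ UB a F := fun a b h =>
    subset_biUnion_of_mem (u := fun b => (F b).2) (show b ∈ Iio a from h)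
  have hA1 : ∀ a b, b < a → (F b).1 ⊆ UA a F := fun a b h =>
    (subset_biUnion_of_mem (u := fun b => (F b).1) (show b ∈ Iio a from h)).trans (subset_insert _ _)
  have hF2 : ∀ a b, b ≤ a → (F b).2 ⊆ (F a).2 := fun a b h => by
    rcases h.eq_or_lt with rfl | h
    · exact Subset.rfl
    · exact (hB1 a b h).trans (hG a).2.2.1
  refine ⟨fun a => UA a F, fun a => (F a).1, fun a => UB a F, fun a => rfl, fun a => (hG a).1,
    fun a => (hG a).2.1, fun a => (hsz a).1, ?_, ?_, ?_⟩
  · intro a b hab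
    exact biUnion_subset_biUnion_left (Iio_subset_Iio hab)
  · intro a b hab x hx y hy hxy
    obtain ⟨g, hg, hne⟩ := (hG a).2.2.2.1 x hx y hy hxy
    exact ⟨g, hB1 b a hab hg, hne⟩
  · intro a w
    have := (isClosed_closure (s := UA a F)).isCompact.inter_iInter_nonempty
      (fun g : UB a F => {z | g.1 z = g.1 w})
      (fun g => isClosed_eq g.1.continuous continuous_const) (by
        intro u
        rcases u.eq_empty_or_nonempty with rfl | hu
        · exact ⟨x0, subset_closure (mem_insert _ _), by simp⟩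
        have hb : ∀ g : UB a F, ∃ b, b < a ∧ g.1 ∈ (F b).2 := fun g => by
          obtain ⟨b, hb, hg⟩ := mem_iUnion₂.mp g.2
          exact ⟨b, hb, hg⟩
        choose β hβ1 hβ2 using hb
        obtain ⟨g0, -, hg0⟩ := u.exists_max_image β hu
        have hsub : ((u.map (Function.Embedding.subtype _) : Finset C(K, ℝ)) : Set C(K, ℝ)) ⊆
            (F (β g0)).2 := by
          intro g hg
          obtain ⟨g', hg', rfl⟩ := Finset.mem_map.mp hg
          exact hF2 _ _ (hg0 g' hg') (hβ2 g')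
        obtain ⟨z, hz, hzw⟩ := hN (u.map (Function.Embedding.subtype _)) w
        refine ⟨z, closure_mono (((hG _).2.2.2.2 _ hsub).trans (hA1 a _ (hβ1 g0))) hz, ?_⟩
        simp only [mem_iInter]
        intro g hg
        exact hzw _ (Finset.mem_map_of_mem _ hg))
    obtain ⟨z, hz, hz2⟩ := this
    exact ⟨z, hz, fun g hg => mem_iInter.mp hz2 ⟨g, hg⟩⟩

theorem jumps_countable {K : Type} [TopologicalSpace K] [CompactSpace K] (hK : Tight K)
    {W : Type} [LinearOrder W] [WellFoundedLT W] (A A' : W → Set K) (B : W → Set C(K, ℝ))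
    (hA : ∀ a b, a < b → A' a ⊆ A b) (hA' : ∀ a, A a ⊆ A' a) (hB : Monotone B)
    (hS : ∀ a b, a < b → Sep (B b) (closure (A a))) (z : W → K → K)
    (hz1 : ∀ a w, z a w ∈ closure (A a)) (hz2 : ∀ a w, ∀ g ∈ B a, g (z a w) = g w)
    (f : C(K, ℝ)) : {a | ∃ w ∈ A' a, f w ≠ f (z a w)}.Countable := by
  have hcov : {a | ∃ w ∈ A' a, f w ≠ f (z a w)} ⊆
      ⋃ n : ℕ, {a | ∃ w ∈ A' a, 1 / ((n : ℝ) + 1) ≤ |f w - f (z a w)|} := by
    rintro a ⟨w, hw, hne⟩
    obtain ⟨n, hn⟩ := exists_nat_one_div_lt (abs_pos.mpr (sub_ne_zero.mpr hne))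
    exact mem_iUnion.mpr ⟨n, w, hw, hn.le⟩
  refine (countable_iUnion fun n => ?_).mono hcov
  set ε : ℝ := 1 / ((n : ℝ) + 1) with hε
  have hεpos : 0 < ε := by positivity
  set J := {a | ∃ w ∈ A' a, ε ≤ |f w - f (z a w)|} with hJ
  by_contra hJc
  let J' : Set W := {a | a ∈ J ∧ (J ∩ Iio a).Countable}
  have hJ' : ¬ J'.Countable := by
    intro hc
    have hne : (J \ J').Nonempty := by
      by_contra h
      rw [not_nonempty_iff_eq_empty, sdiff_eq_empty] at h
      exact hJc (hc.mono h)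
    obtain ⟨a, ha, hmin⟩ := (wellFounded_lt (α := W)).has_min _ hne
    refine ha.2 ⟨ha.1, hc.mono ?_⟩
    intro b hb
    by_contra hb'
    exact hmin b ⟨hb.1, hb'⟩ hb.2
  have hbd : ∀ T : Set W, T.Countable → T ⊆ J' → ∃ c ∈ J', ∀ t ∈ T, t < c :=
    exists_gt_of_countable J' ℵ₀ le_rfl (by
      rw [← not_le, le_aleph0_iff_set_countable]; exact hJ')
      (fun a ha => le_aleph0_iff_set_countable.mpr
        (ha.2.mono (inter_subset_inter_left _ fun b hb => hb.1)))
  have hgt : ∀ a ∈ J', ∃ c ∈ J', a < c := fun a ha => by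
    obtain ⟨c, hc, h⟩ := hbd {a} (countable_singleton a) (by simpa using ha)
    exact ⟨c, hc, h a rfl⟩
  have hAm : ∀ a b, a < b → A a ⊆ A b := fun a b h => (hA' a).trans (hA a b h)
  have hw : ∀ a : J', ∃ w ∈ A' a, ε ≤ |f w - f (z a w)| := fun a => a.2.1
  choose w hw1 hw2 using hw
  let p : J' → K × K := fun a => (w a, z a (w a))
  let U : Set K := ⋃ a ∈ J', A a
  have hne : Nonempty J' := by
    obtain ⟨c, hc, -⟩ := hbd ∅ countable_empty (empty_subset _)
    exact ⟨⟨c, hc⟩⟩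
  have hE : (⋂ c : J', closure (p '' Ici c)).Nonempty := by
    refine IsCompact.nonempty_iInter_of_directed_nonempty_isCompact_isClosed _ ?_
      (fun c => ⟨p c, subset_closure ⟨c, le_rfl, rfl⟩⟩) (fun c => isClosed_closure.isCompact)
      (fun c => isClosed_closure)
    intro a b
    exact ⟨max a b, closure_mono (image_mono (Ici_subset_Ici.mpr (le_max_left _ _))),
      closure_mono (image_mono (Ici_subset_Ici.mpr (le_max_right _ _)))⟩
  obtain ⟨⟨x, y⟩, hxy⟩ := hE
  rw [mem_iInter] at hxy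
  obtain ⟨c0⟩ := hne
  have h1 : ε ≤ |f x - f y| := by
    have : IsClosed {q : K × K | ε ≤ |f q.1 - f q.2|} := isClosed_le continuous_const (by fun_prop)
    exact closure_minimal (by rintro _ ⟨a, -, rfl⟩; exact hw2 a) this (hxy c0)
  have h2 : x ∈ closure U ∧ y ∈ closure U := by
    have : IsClosed (closure U ×ˢ closure U) := isClosed_closure.prod isClosed_closure
    refine closure_minimal (t := closure U ×ˢ closure U) ?_ this (hxy c0)
    rintro _ ⟨a, -, rfl⟩
    obtain ⟨c, hc, hac⟩ := hgt a a.2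
    exact ⟨subset_closure (subset_biUnion_of_mem (u := A) hc (hA _ _ hac (hw1 a))),
      closure_mono (subset_biUnion_of_mem (u := A) a.2) (hz1 _ _)⟩
  have hne : x ≠ y := by
    rintro rfl
    simp at h1
    linarith
  obtain ⟨C, hC, hCc, hx, hy⟩ := hK.exists_countable₂ h2.1 h2.2
  have hC' : ∀ u ∈ C, ∃ a ∈ J', u ∈ A a := fun u hu => by
    obtain ⟨a, ha, h⟩ := mem_iUnion₂.mp (hC hu)
    exact ⟨a, ha, h⟩
  have : Nonempty W := ⟨c0⟩
  choose! α hα1 hα2 using hC'
  obtain ⟨c, hc, hcα⟩ := hbd (α '' C) (hCc.image _) (by rintro _ ⟨u, hu, rfl⟩; exact hα1 u hu)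
  have hCA : C ⊆ A c := fun u hu => hAm _ _ (hcα _ ⟨u, hu, rfl⟩) (hα2 u hu)
  obtain ⟨c', hc', hcc'⟩ := hgt c hc
  obtain ⟨g, hg, hgne⟩ := hS c c' hcc' x (closure_mono hCA hx) y (closure_mono hCA hy) hne
  have : IsClosed {q : K × K | g q.1 = g q.2} := isClosed_eq (by fun_prop) (by fun_prop)
  refine hgne (closure_minimal (t := {q : K × K | g q.1 = g q.2}) ?_ this (hxy ⟨c', hc'⟩))
  rintro _ ⟨a, ha, rfl⟩
  exact (hz2 a (w a) g (hB (show c' ≤ a.1 from ha) hg)).symm

theorem cond_of (κ : Cardinal.{0}) : ∀ (K : Type) [TopologicalSpace K] [CompactSpace K]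
    [T2Space K], Tight K → (∀ μ, ℵ₀ ≤ μ → μ < κ → Mono K μ) → ∀ D : Set K, Dense D → #D ≤ κ →
    Cond K := by
  induction κ using WellFoundedLT.induction with
  | ind κ ih =>
  intro K _ _ _ hK hM D hD hDκ
  by_cases hc : #D ≤ ℵ₀
  · exact cond_of_countable D hD (le_aleph0_iff_set_countable.mp hc)
  rcases hDκ.lt_or_eq with hlt | heq
  · exact ih _ hlt K hK (fun μ h1 h2 => hM μ h1 (h2.trans hlt)) D hD le_rfl
  have hκ : ℵ₀ < κ := heq ▸ not_le.mp hc
  let W := κ.ord.ToType
  obtain ⟨e⟩ : Nonempty (W ≃ D) := Cardinal.eq.mp (by rw [heq, mk_ord_toType])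
  have hμ : ∀ a : W, max #(Iio a) ℵ₀ < κ := fun a => max_lt (mk_Iio_lt' a) hκ
  obtain ⟨x0, -⟩ : D.Nonempty := by
    by_contra h
    rw [not_nonempty_iff_eq_empty] at h
    simp [h] at hc
  obtain ⟨A, A', B, hA, hA', hd, hsz, hB, hS, hN⟩ :=
    exists_chain x0 (fun a : W => (e a).1) (fun a => hM _ (le_max_right _ _) (hμ a))
  choose z hz1 hz2 using hN
  have hAA : ∀ a b, a < b → A' a ⊆ A b := fun a b h => by
    rw [hA b]
    exact (subset_biUnion_of_mem (u := A') (show a ∈ Iio b from h)).trans (subset_insert _ _)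
  let R0 : W → Set (K × K) := fun a => (fun w => (w, z a w)) '' A' a
  let R : W → Set (K × K) := fun a => closure (R0 a)
  have hdense : ∀ a, Dense (((↑) : R a → K × K) ⁻¹' R0 a) := fun a => by
    rw [Subtype.dense_iff, image_preimage_eq_of_subset (by simpa using subset_closure)]
  have hR : ∀ a, Cond (R a) := by
    intro a
    have : CompactSpace (R a) := isCompact_iff_compactSpace.mp isClosed_closure.isCompact
    refine ih _ (hμ a) (R a) ((hK.prod hK).subtype isClosed_closure)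
      (fun μ h1 h2 => (hM μ h1 (h2.trans (hμ a))).sub_prod h1 _) _ (hdense a) ?_
    exact (mk_preimage_of_injective _ _ Subtype.val_injective).trans (mk_image_le.trans (hsz a))
  choose ι φ hφ1 hφ2 using hR
  let L : ∀ a, (K → ℝ) →L[ℝ] (R a → ℝ) := fun a => ContinuousLinearMap.pi fun r =>
    (ContinuousLinearMap.proj r.1.1 : (K → ℝ) →L[ℝ] ℝ) -
      (ContinuousLinearMap.proj r.1.2 : (K → ℝ) →L[ℝ] ℝ)
  let Lc : ∀ a, C(K, ℝ) → C(R a, ℝ) := fun a f => ⟨fun r => f r.1.1 - f r.1.2, by fun_prop⟩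
  have hL : ∀ a (f : C(K, ℝ)), L a f = Lc a f := fun a f => rfl
  refine ⟨Option (Σ a, ι a), fun i => match i with
    | none => ContinuousLinearMap.proj x0
    | some ⟨a, j⟩ => (φ a j).comp (L a), fun f => ?_, fun f hf => ?_⟩
  · have hJ := jumps_countable hK A A' B hAA hA' hB hS z hz1 hz2 f
    have hc : (insert none (⋃ a ∈ {a | ∃ w ∈ A' a, f w ≠ f (z a w)},
        (fun j => some (⟨a, j⟩ : Σ a, ι a)) '' {j | φ a j (Lc a f) ≠ 0})).Countable :=
      (hJ.biUnion fun a _ => (hφ1 a (Lc a f)).image _).insert _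
    refine hc.mono ?_
    rintro (_ | ⟨a, j⟩) hi
    · exact mem_insert _ _
    · have hi' : φ a j (Lc a f) ≠ 0 := hi
      refine mem_insert_of_mem _ (mem_iUnion₂.mpr ⟨a, ?_, j, hi', rfl⟩)
      by_contra hn
      apply hi'
      have : (Lc a f : R a → ℝ) = 0 := by
        refine Continuous.ext_on (hdense a) (Lc a f).continuous continuous_const ?_
        rintro ⟨r, hr⟩ ⟨w, hw, rfl⟩
        have : f w = f (z a w) := by
          by_contra h; exact hn ⟨w, hw, h⟩
        exact sub_eq_zero.mpr this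
      rw [this, map_zero]
  · have h0 : f x0 = 0 := hf none
    have key : ∀ a, ∀ w ∈ A' a, f w = 0 := by
      intro a
      induction a using WellFoundedLT.induction with
      | ind a iha =>
      intro w hw
      have h1 : Lc a f = 0 := hφ2 a _ fun j => hf (some ⟨a, j⟩)
      have h2 : f w - f (z a w) = 0 :=
        congrArg (fun h : C(R a, ℝ) => h ⟨(w, z a w), subset_closure ⟨w, hw, rfl⟩⟩) h1
      have h3 : f (z a w) = 0 := by
        refine closure_minimal (t := {x | f x = 0}) ?_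
          (isClosed_eq f.continuous continuous_const) (hz1 a w)
        rw [hA a]
        rintro u (rfl | hu)
        · exact h0
        · obtain ⟨b, hb, hu⟩ := mem_iUnion₂.mp hu
          exact iha b hb u hu
      linarith
    ext x
    have := Continuous.ext_on hD f.continuous continuous_const (g := fun _ => (0 : ℝ))
      (fun y hy => key (e.symm ⟨y, hy⟩) y (by simpa using hd (e.symm ⟨y, hy⟩)))
    exact congrFun this x

end Pool.Agent.H276Z.Sok
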