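import Mathlib

set_option autoImplicit false

namespace Pool.Agent.H276Z.Sok

/-- `X` is Sokolov: for closed sets `F n m ⊆ Xⁿ` there is a continuous `f : X → X` whose image has
a countable network and such that `fⁿ` maps each `F n m` into itself. -/
def IsSokolov (X : Type) [TopologicalSpace X] : Prop :=
  ∀ F : (n : ℕ) → ℕ → Set (Fin n → X), (∀ n m, IsClosed (F n m)) →
    ∃ f : X → X, Continuous f ∧
      (∃ N : Set (Set X), N.Countable ∧
        ∀ x ∈ Set.range f, ∀ U : Set X, IsOpen U → x ∈ U →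
          ∃ A ∈ N, x ∈ A ∧ A ⊆ U ∩ Set.range f) ∧
      ∀ n m, ∀ x ∈ F n m, f ∘ x ∈ F n m

/-- `X` is `μ`-monolithic: the closure of every subset of size at most `μ` has a network of size at
most `μ`. -/
def IsMonolithic (X : Type) [TopologicalSpace X] (μ : Cardinal.{0}) : Prop :=
  ∀ A : Set X, Cardinal.mk A ≤ μ → ∃ N : Set (Set X), Cardinal.mk N ≤ μ ∧
    ∀ x ∈ closure A, ∀ U : Set X, IsOpen U → x ∈ U → ∃ B ∈ N, x ∈ B ∧ B ⊆ U ∩ closure A

end Pool.Agent.H276Z.Sok
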