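import Pool.Agent.H276Z.Sok.Cond
import Pool.Agent.H276Z.Sok.Defs

set_option autoImplicit false
open Set
open Cardinal hiding univ

namespace Pool.Agent.H276Z.Sok

/-- A convenient form of the Sokolov property. -/
theorem IsSokolov.use {X : Type} [TopologicalSpace X] (h : IsSokolov X) (S : ℕ → Set X)
    (hS : ∀ m, IsClosed (S m)) (E : Set (X × X)) (hE : IsClosed E) :
    ∃ f : X → X, Continuous f ∧
      (∃ N : Set (Set X), N.Countable ∧
        ∀ x ∈ Set.range f, ∀ U : Set X, IsOpen U → x ∈ U →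
          ∃ A ∈ N, x ∈ A ∧ A ⊆ U ∩ Set.range f) ∧
      (∀ m, ∀ x ∈ S m, f x ∈ S m) ∧ ∀ x y, (x, y) ∈ E → (f x, f y) ∈ E := by
  let F : (n : ℕ) → ℕ → Set (Fin n → X) := fun n => match n with
    | 1 => fun m => {x | x 0 ∈ S m}
    | 2 => fun _ => {x | (x 0, x 1) ∈ E}
    | _ => fun _ => univ
  obtain ⟨f, hf, hN, hF⟩ := h F (by
    intro n m
    match n with
    | 0 => exact isClosed_univ
    | 1 => exact (hS m).preimage (continuous_apply 0)
    | 2 => exact hE.preimage (f := fun x : Fin 2 → X => (x 0, x 1)) (by fun_prop)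
    | (n + 3) => exact isClosed_univ)
  exact ⟨f, hf, hN, fun m x hx => hF 1 m (fun _ => x) hx, fun x y hxy => hF 2 0 ![x, y] hxy⟩

theorem IsSokolov.mono {X : Type} [TopologicalSpace X] [CompactSpace X] [T2Space X]
    (h : IsSokolov X) : Mono X ℵ₀ := by
  intro C hC
  rcases C.eq_empty_or_nonempty with rfl | hne
  · exact ⟨∅, by simp, by simp [Sep]⟩
  obtain ⟨c, rfl⟩ := (le_aleph0_iff_set_countable.mp hC).exists_eq_range hne
  obtain ⟨f, hf, ⟨N, hNc, hN⟩, hfix, -⟩ := h.use (fun m => {c m}) (fun _ => isClosed_singleton)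
    univ isClosed_univ
  have hsub : closure (range c) ⊆ range f := by
    refine closure_minimal ?_ (isCompact_range hf).isClosed
    rintro _ ⟨m, rfl⟩
    exact ⟨c m, hfix m _ rfl⟩
  have hU : ∀ p : Set X × Set X, Disjoint (closure p.1) (closure p.2) →
      ∃ g : C(X, ℝ), EqOn g 0 (closure p.1) ∧ EqOn g 1 (closure p.2) := fun p hp => by
    obtain ⟨g, h1, h2, -⟩ := exists_continuous_zero_one_of_isClosed isClosed_closure
      isClosed_closure hp
    exact ⟨g, h1, h2⟩
  choose! g hg0 hg1 using hU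
  refine ⟨g '' (N ×ˢ N), le_aleph0_iff_set_countable.mpr ((hNc.prod hNc).image _), ?_⟩
  intro x hx y hy hxy
  obtain ⟨U, V, hUo, hVo, hxU, hyV, hUV⟩ := t2_separation hxy
  obtain ⟨U', hU', hU'c, hU's⟩ := exists_mem_nhds_isClosed_subset (hUo.mem_nhds hxU)
  obtain ⟨V', hV', hV'c, hV's⟩ := exists_mem_nhds_isClosed_subset (hVo.mem_nhds hyV)
  obtain ⟨A, hA, hxA, hAs⟩ := hN x (hsub hx) _ isOpen_interior (mem_interior_iff_mem_nhds.mpr hU')
  obtain ⟨B, hB, hyB, hBs⟩ := hN y (hsub hy) _ isOpen_interior (mem_interior_iff_mem_nhds.mpr hV')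
  have hd : Disjoint (closure A) (closure B) :=
    hUV.mono ((closure_minimal ((hAs.trans inter_subset_left).trans interior_subset) hU'c).trans hU's)
      ((closure_minimal ((hBs.trans inter_subset_left).trans interior_subset) hV'c).trans hV's)
  refine ⟨g (A, B), ⟨(A, B), ⟨hA, hB⟩, rfl⟩, ?_⟩
  rw [hg0 (A, B) hd (subset_closure hxA), hg1 (A, B) hd (subset_closure hyB)]
  simp

theorem cluster {X : Type} [TopologicalSpace X] [CompactSpace X] {ι : Type} (Z : Set X)
    (T : ι → Set X) (hT : ∀ i, IsClosed (T i))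
    (h : ∀ u : Finset ι, ∃ z ∈ Z, ∀ i ∈ u, z ∈ T i) : ∃ z ∈ closure Z, ∀ i, z ∈ T i := by
  obtain ⟨z, hz, hz2⟩ := (isClosed_closure (s := Z)).isCompact.inter_iInter_nonempty T hT (by
    intro u
    obtain ⟨z, hz, hz2⟩ := h u
    exact ⟨z, subset_closure hz, mem_iInter₂.mpr hz2⟩)
  exact ⟨z, hz, mem_iInter.mp hz2⟩

theorem IsSokolov.tight {X : Type} [TopologicalSpace X] [CompactSpace X] [T2Space X]
    (h : IsSokolov X) : Tight X := by
  classical
  intro S hS
  rw [← closure_subset_iff_isClosed]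
  intro p hp
  by_contra hpS
  let W := (Order.succ ℵ₀ : Cardinal.{0}).ord.ToType
  have hI : ∀ a : W, (Iio a).Countable := fun a =>
    le_aleph0_iff_set_countable.mp (Order.lt_succ_iff.mp (mk_Iio_lt' a))
  have hbd : ∀ T : Set W, T.Countable → ∃ c, ∀ t ∈ T, t < c := fun T hT => by
    obtain ⟨c, -, hc⟩ := exists_gt_of_countable (univ : Set W) ℵ₀ le_rfl
      (by rw [mk_univ, mk_ord_toType]; exact Order.lt_succ _)
      (fun a _ => by rw [univ_inter]; exact le_aleph0_iff_set_countable.mpr (hI a)) T hT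
      (subset_univ _)
    exact ⟨c, hc⟩
  have hgt : ∀ a : W, ∃ c, a < c := fun a => by
    obtain ⟨c, hc⟩ := hbd {a} (countable_singleton a)
    exact ⟨c, hc a rfl⟩
  -- points of `S` in countably many closed neighbourhoods of `p`
  have hpt : ∀ G : Set C(X, ℝ), G.Countable → (∀ g ∈ G, g p = 1) →
      ∃ x ∈ S, ∀ g ∈ G, 1 / 2 ≤ g x := by
    intro G hG hG1
    have hfin : ∀ u : Finset G, ∃ x ∈ S, ∀ g ∈ u, 1 / 2 ≤ g.1 x := by
      intro u
      have : (⋂ g ∈ u, {x | 1 / 2 < g.1 x}) ∈ nhds p := by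
        refine (Filter.biInter_finset_mem u).mpr fun g _ => ?_
        refine (isOpen_lt continuous_const g.1.continuous).mem_nhds ?_
        show 1 / 2 < g.1 p
        rw [hG1 g.1 g.2]; norm_num
      obtain ⟨x, hx1, hx2⟩ := mem_closure_iff_nhds.mp hp _ this
      exact ⟨x, hx2, fun g hg => le_of_lt (mem_iInter₂.mp hx1 g hg)⟩
    choose x hx1 hx2 using hfin
    have := hG.to_subtype
    obtain ⟨z, hz, hz2⟩ := cluster (range x) (fun g : G => {y | 1 / 2 ≤ g.1 y})
      (fun g => isClosed_le continuous_const g.1.continuous)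
      (fun u => ⟨x u, ⟨u, rfl⟩, hx2 u⟩)
    exact ⟨z, hS _ (range_subset_iff.mpr hx1) (countable_range x) hz, fun g hg => hz2 ⟨g, hg⟩⟩
  have : Nonempty (X × C(X, ℝ)) := ⟨(p, 0)⟩
  let P : W → (W → X × C(X, ℝ)) → X × C(X, ℝ) → Prop := fun a F t =>
    (∀ b, b < a → (F b).1 ∈ S ∧ (F b).2 p = 1) →
      (t.1 ∈ S ∧ t.2 p = 1) ∧ (∀ b, b < a → t.2 (F b).1 = 0) ∧
        (∀ b, b < a → 1 / 2 ≤ (F b).2 t.1) ∧ 1 / 2 ≤ t.2 t.1
  obtain ⟨F, hF⟩ := exists_rec P (by
    intro a F G t hFG h hG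
    obtain ⟨h1, h2, h3, h4⟩ := h fun b hb => by rw [hFG b hb]; exact hG b hb
    exact ⟨h1, fun b hb => hFG b hb ▸ h2 b hb, fun b hb => hFG b hb ▸ h3 b hb, h4⟩) (by
    intro a F
    by_cases hg : ∀ b, b < a → (F b).1 ∈ S ∧ (F b).2 p = 1
    swap
    · exact ⟨(p, 0), fun h => absurd h hg⟩
    have hcl : closure ((fun b => (F b).1) '' Iio a) ⊆ S :=
      hS _ (by rintro _ ⟨b, hb, rfl⟩; exact (hg b hb).1) ((hI a).image _)
    obtain ⟨g, g0, g1, -⟩ := exists_continuous_zero_one_of_isClosed (isClosed_closure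
      (s := (fun b => (F b).1) '' Iio a)) (isClosed_singleton (x := p))
      (disjoint_singleton_right.mpr fun hh => hpS (hcl hh))
    obtain ⟨x, hx, hx2⟩ := hpt (insert g ((fun b => (F b).2) '' Iio a)) (((hI a).image _).insert _)
      (by
        rintro _ (rfl | ⟨b, hb, rfl⟩)
        · exact g1 rfl
        · exact (hg b hb).2)
    exact ⟨(x, g), fun _ => ⟨⟨hx, g1 rfl⟩, fun b hb => g0 (subset_closure ⟨b, hb, rfl⟩),
      fun b hb => hx2 _ (mem_insert_of_mem _ ⟨b, hb, rfl⟩), hx2 _ (mem_insert _ _)⟩⟩)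
  have hgood : ∀ a, (F a).1 ∈ S ∧ (F a).2 p = 1 := by
    intro a
    induction a using WellFoundedLT.induction with
    | ind a ih => exact (hF a ih).1
  let x : W → X := fun a => (F a).1
  let g : W → C(X, ℝ) := fun a => (F a).2
  have hz : ∀ a b, a < b → g b (x a) = 0 := fun a b hab => (hF b fun c _ => hgood c).2.1 a hab
  have hh : ∀ a b, b ≤ a → 1 / 2 ≤ g b (x a) := fun a b hab => by
    rcases hab.eq_or_lt with rfl | hab
    · exact (hF b fun c _ => hgood c).2.2.2
    · exact (hF a fun c _ => hgood c).2.2.1 b hab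
  obtain ⟨a0, -, ha0⟩ := (wellFounded_lt (α := W)).has_min univ (by
    obtain ⟨c, -⟩ := hbd ∅ countable_empty
    exact ⟨c, trivial⟩)
  let H : Set X := ⋂ b, {y | 1 / 2 ≤ g b y}
  let E : Set (X × X) := ⋂ b, ⋂ c, ⋂ (_ : c < b), ({q | g b q.2 = 0} ∪ {q | 1 / 2 ≤ g c q.1})
  have hHc : IsClosed H := isClosed_iInter fun b => isClosed_le continuous_const (g b).continuous
  have hEc : IsClosed E := isClosed_iInter fun b => isClosed_iInter fun c =>
    isClosed_iInter fun _ => (isClosed_eq (by fun_prop) continuous_const).union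
      (isClosed_le continuous_const (by fun_prop))
  obtain ⟨f, hf, ⟨N, hNc, hN⟩, hfix, hE⟩ := h.use (fun m => if m = 0 then H else {x a0})
    (fun m => by split_ifs; exacts [hHc, isClosed_singleton]) E hEc
  have hfH : ∀ y ∈ H, f y ∈ H := by simpa using hfix 0
  have hf0 : f (x a0) = x a0 := by simpa using hfix 1
  let Z : W → Set X := fun c => ⋂ b, ⋂ (_ : c < b), {y | g b y = 0}
  have hZc : ∀ c, IsClosed (Z c) := fun c => isClosed_iInter fun b => isClosed_iInter fun _ =>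
    isClosed_eq (g b).continuous continuous_const
  have hZm : ∀ c c', c < c' → Z c ⊆ Z c' := fun c c' hc y hy =>
    mem_iInter₂.mpr fun b hb => mem_iInter₂.mp hy b (hc.trans hb)
  -- cluster points of initial segments
  have hcl : ∀ I : Set W, I.Nonempty → ∃ y ∈ closure (x '' I), ∀ c ∈ I, 1 / 2 ≤ g c y := by
    intro I hne
    obtain ⟨y, hy, hy2⟩ := cluster (x '' I) (fun c : I => {y | 1 / 2 ≤ g c y})
      (fun c => isClosed_le continuous_const (g c).continuous) (by
        intro u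
        rcases u.eq_empty_or_nonempty with rfl | hu
        · obtain ⟨c, hc⟩ := hne
          exact ⟨x c, ⟨c, hc, rfl⟩, by simp⟩
        obtain ⟨c, -, hc⟩ := u.exists_max_image (fun c => c.1) hu
        exact ⟨x c, ⟨c, c.2, rfl⟩, fun i hi => hh _ _ (hc i hi)⟩)
    exact ⟨y, hy, fun c hc => hy2 ⟨c, hc⟩⟩
  have hbdZ : ∀ I : Set W, I.Countable → (∀ a ∈ I, ∃ c, f (x a) ∈ Z c) →
      ∃ c, closure ((fun a => f (x a)) '' I) ⊆ Z c := by
    intro I hIc hIZ
    have : Nonempty W := ⟨a0⟩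
    choose! γ hγ using hIZ
    obtain ⟨c, hc⟩ := hbd (γ '' I) (hIc.image _)
    refine ⟨c, closure_minimal ?_ (hZc c)⟩
    rintro _ ⟨a, ha, rfl⟩
    exact hZm _ _ (hc _ ⟨a, ha, rfl⟩) (hγ a ha)
  have key : ∀ a, ∃ c, f (x a) ∈ Z c := by
    intro a
    induction a using WellFoundedLT.induction with
    | ind a ih =>
    rcases (Iio a).eq_empty_or_nonempty with he | hne
    · have : a = a0 := by
        refine le_antisymm ?_ (not_lt.mp (ha0 a trivial))
        by_contra hlt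
        have : a0 ∈ Iio a := not_le.mp hlt
        rw [he] at this
        exact this
      subst this
      exact ⟨a, by rw [hf0]; exact mem_iInter₂.mpr fun b hb => hz a b hb⟩
    obtain ⟨y, hy, hy2⟩ := hcl _ hne
    obtain ⟨c, hc⟩ := hbdZ _ (hI a) ih
    have hfy : f y ∈ Z c := by
      refine hc ?_
      rw [← image_image f x]
      exact image_closure_subset_closure_image hf ⟨y, hy, rfl⟩
    have hyE : (y, x a) ∈ E := by
      refine mem_iInter.mpr fun b => mem_iInter₂.mpr fun c' hc' => ?_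
      rcases lt_or_ge a b with hab | hab
      · exact Or.inl (hz a b hab)
      · exact Or.inr (hy2 c' (hc'.trans_le hab))
    obtain ⟨c', hcc'⟩ := hgt c
    refine ⟨c', mem_iInter₂.mpr fun b hb => ?_⟩
    rcases mem_iInter₂.mp (mem_iInter.mp (hE _ _ hyE) b) c' hb with h1 | h1
    · exact h1
    · have h2 : g c' (f y) = 0 := mem_iInter₂.mp hfy c' hcc'
      have h3 : 1 / 2 ≤ g c' (f y) := h1
      linarith
  -- a countable dense part of the image
  have : Nonempty W := ⟨a0⟩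
  have hsel : ∀ A : Set X, (∃ a, f (x a) ∈ A) → ∃ a, f (x a) ∈ A := fun _ h => h
  choose! σ hσ using hsel
  obtain ⟨c, hc⟩ := hbdZ (σ '' N) (hNc.image _) (fun a _ => key a)
  have hall : ∀ a, f (x a) ∈ Z c := by
    intro a
    refine hc (mem_closure_iff.mpr fun U hU hxU => ?_)
    obtain ⟨A, hA, hxA, hAs⟩ := hN _ ⟨x a, rfl⟩ U hU hxU
    exact ⟨f (x (σ A)), (hAs (hσ A ⟨a, hxA⟩)).1, σ A, ⟨A, hA, rfl⟩, rfl⟩
  obtain ⟨y, hy, hy2⟩ := hcl univ ⟨a0, trivial⟩
  have hyH : y ∈ H := mem_iInter.mpr fun b => hy2 b trivial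
  have hfy : f y ∈ Z c := by
    refine closure_minimal (t := f ⁻¹' Z c) ?_ ((hZc c).preimage hf) hy
    rintro _ ⟨a, -, rfl⟩
    exact hall a
  obtain ⟨c', hcc'⟩ := hgt c
  have h2 : g c' (f y) = 0 := mem_iInter₂.mp hfy c' hcc'
  have h3 : 1 / 2 ≤ g c' (f y) := mem_iInter.mp (hfH y hyH) c'
  linarith

theorem Cond.condenses {X : Type} [TopologicalSpace X] (h : Cond X) :
    ∃ (κ : Type) (Φ : {g : X → ℝ // Continuous g} → (κ → ℝ)),
      Continuous Φ ∧ Function.Injective Φ ∧ ∀ g, (Function.support (Φ g)).Countable := by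
  obtain ⟨ι, φ, h1, h2⟩ := h
  refine ⟨ι, fun g i => φ i g.1, continuous_pi fun i =>
    (φ i).continuous.comp continuous_subtype_val, ?_, fun g => h1 ⟨g.1, g.2⟩⟩
  intro g g' hgg
  have := h2 (⟨g.1, g.2⟩ - ⟨g'.1, g'.2⟩) fun i => by
    have e : φ i g.1 = φ i g'.1 := congrFun hgg i
    show φ i (g.1 - g'.1) = 0
    rw [map_sub, e, sub_self]
  refine Subtype.ext (funext fun x => ?_)
  have := congrArg (fun h : C(X, ℝ) => h x) this
  exact sub_eq_zero.mp this

theorem main (X : Type) [TopologicalSpace X] [CompactSpace X] [T2Space X] (h : IsSokolov X)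
    (D : Set X) (hD : Dense D) (hc : #D ≤ ℵ_ Ordinal.omega0) :
    ∃ (κ : Type) (Φ : {g : X → ℝ // Continuous g} → (κ → ℝ)),
      Continuous Φ ∧ Function.Injective Φ ∧ ∀ g, (Function.support (Φ g)).Countable :=
  (cond_of _ X h.tight (fun μ h1 h2 => mono_lt_aleph_omega h.tight h.mono μ h1 h2) D hD hc).condenses

end Pool.Agent.H276Z.Sok
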