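import Pool.Agent.H276Z.Sok.Main

set_option autoImplicit false
open Set
open Cardinal hiding univ

namespace Pool.Agent.H276Z.Sok

theorem IsMonolithic.mono {X : Type} [TopologicalSpace X] [CompactSpace X] [T2Space X]
    {μ : Cardinal.{0}} (hμ : ℵ₀ ≤ μ) (h : IsMonolithic X μ) : Mono X μ := by
  intro C hC
  obtain ⟨N, hNc, hN⟩ := h C hC
  have hU : ∀ p : Set X × Set X, Disjoint (closure p.1) (closure p.2) →
      ∃ g : C(X, ℝ), EqOn g 0 (closure p.1) ∧ EqOn g 1 (closure p.2) := fun p hp => by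
    obtain ⟨g, h1, h2, -⟩ := exists_continuous_zero_one_of_isClosed isClosed_closure
      isClosed_closure hp
    exact ⟨g, h1, h2⟩
  choose! g hg0 hg1 using hU
  refine ⟨g '' (N ×ˢ N), mk_image_le.trans ?_, ?_⟩
  · rw [mk_setProd]
    exact mul_le_of_le hμ hNc hNc
  intro x hx y hy hxy
  obtain ⟨U, V, hUo, hVo, hxU, hyV, hUV⟩ := t2_separation hxy
  obtain ⟨U', hU', hU'c, hU's⟩ := exists_mem_nhds_isClosed_subset (hUo.mem_nhds hxU)
  obtain ⟨V', hV', hV'c, hV's⟩ := exists_mem_nhds_isClosed_subset (hVo.mem_nhds hyV)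
  obtain ⟨A, hA, hxA, hAs⟩ := hN x hx _ isOpen_interior (mem_interior_iff_mem_nhds.mpr hU')
  obtain ⟨B, hB, hyB, hBs⟩ := hN y hy _ isOpen_interior (mem_interior_iff_mem_nhds.mpr hV')
  have hd : Disjoint (closure A) (closure B) :=
    hUV.mono ((closure_minimal ((hAs.trans inter_subset_left).trans interior_subset) hU'c).trans hU's)
      ((closure_minimal ((hBs.trans inter_subset_left).trans interior_subset) hV'c).trans hV's)
  refine ⟨g (A, B), ⟨(A, B), ⟨hA, hB⟩, rfl⟩, ?_⟩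
  rw [hg0 (A, B) hd (subset_closure hxA), hg1 (A, B) hd (subset_closure hyB)]
  simp

theorem mono_all {K : Type} [TopologicalSpace K] (hK : Tight K) (h0 : Mono K ℵ₀)
    (κ : Cardinal.{0})
    (hs : ∀ μ, ℵ_ Ordinal.omega0 ≤ μ → μ < κ → μ.ord.cof = ℵ₀ → Mono K μ) :
    ∀ μ, ℵ₀ ≤ μ → μ < κ → Mono K μ := by
  intro μ
  induction μ using WellFoundedLT.induction with
  | ind μ ih =>
  intro hμ hκ
  rcases lt_or_ge μ (ℵ_ Ordinal.omega0) with hlt | hge
  · exact mono_lt_aleph_omega hK h0 μ hμ hlt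
  by_cases hc : μ.ord.cof = ℵ₀
  · exact hs μ hge hκ hc
  have hcof : ℵ₀ < μ.ord.cof :=
    lt_of_le_of_ne (Ordinal.aleph0_le_cof.mpr (isSuccLimit_ord hμ)) (Ne.symm hc)
  have hμ' : ℵ₀ < μ := hcof.trans_le (Ordinal.cof_ord_le μ)
  have hsmall : ∀ A : Set K, #A < μ → ∃ G : Set C(K, ℝ), #G ≤ μ ∧ Sep G (closure A) := by
    intro A hA
    have hlt : max #A ℵ₀ < μ := max_lt hA hμ'
    obtain ⟨G, hG, s⟩ := ih _ hlt (le_max_right _ _) (hlt.trans hκ) A (le_max_left _ _)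
    exact ⟨G, hG.trans hlt.le, s⟩
  intro A hA
  rcases hA.lt_or_eq with hA | hA
  · exact hsmall A hA
  let W := μ.ord.ToType
  obtain ⟨e⟩ : Nonempty (W ≃ A) := Cardinal.eq.mp (by rw [hA, mk_ord_toType])
  choose G hG s using fun a : W =>
    hsmall ((fun b => (e b).1) '' Iio a) (mk_image_le.trans_lt (mk_Iio_lt' a))
  refine ⟨⋃ a, G a, ?_, ?_⟩
  · exact (mk_iUnion_le _).trans (mul_le_of_le hμ (by simp [W]) (ciSup_le' hG))
  · intro x hx y hy hxy
    obtain ⟨C, h1, h2, h3, h4⟩ := hK.exists_countable₂ hx hy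
    have hT : ((fun b => (e b).1) ⁻¹' C).Countable :=
      h2.preimage (Subtype.val_injective.comp e.injective)
    have hnc : ¬ IsCofinal ((fun b => (e b).1) ⁻¹' C) := by
      intro hcf
      have := Order.cof_le hcf
      rw [Ordinal.cof_toType] at this
      exact absurd (this.trans (le_aleph0_iff_set_countable.mpr hT)) (not_le.mpr hcof)
    obtain ⟨c, hc⟩ := not_isCofinal_iff.mp hnc
    have hC : C ⊆ (fun b => (e b).1) '' Iio c := by
      intro z hz
      refine ⟨e.symm ⟨z, h1 hz⟩, hc _ (by simpa using hz), by simp⟩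
    obtain ⟨g, hg, hne⟩ := s c x (closure_mono hC h3) y (closure_mono hC h4) hxy
    exact ⟨g, mem_iUnion.mpr ⟨c, hg⟩, hne⟩

theorem main' (X : Type) [TopologicalSpace X] [CompactSpace X] [T2Space X] (h : IsSokolov X)
    (D : Set X) (hD : Dense D)
    (hm : ∀ μ : Cardinal.{0}, ℵ_ Ordinal.omega0 ≤ μ → μ < #D → μ.ord.cof = ℵ₀ →
      IsMonolithic X μ) :
    ∃ (κ : Type) (Φ : {g : X → ℝ // Continuous g} → (κ → ℝ)),
      Continuous Φ ∧ Function.Injective Φ ∧ ∀ g, (Function.support (Φ g)).Countable :=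
  (cond_of _ X h.tight (mono_all h.tight h.mono _ fun μ h1 h2 h3 =>
    (hm μ h1 h2 h3).mono ((aleph0_le_aleph _).trans h1)) D hD le_rfl).condenses

end Pool.Agent.H276Z.Sok
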